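import Pool.Agent.Run7.h233.EC.Ker
import Pool.Agent.W5h49.EC.CA5
import Pool.Agent.W5h49.EC.NROpen

/-!
# Averages along a measure without atoms at large scales
-/

set_option autoImplicit false
set_option maxHeartbeats 1000000

open scoped ContDiff Topology
open MeasureTheory Set Metric

namespace Pool.Agent.Run7.h233.EC

open Pool.Agent.W71.EC Pool.Agent.W5h83.HG Pool.Agent.W5h49.EC

variable {n : ℕ}

/-- measures without atoms and with bounded support are not concentrated on small balls -/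
theorem conc {μ : Measure (R2 n)} {S : ℝ} (hμ : BS μ S) (hna : ∀ z : R2 n, μ {z} = 0) {ε : ℝ}
    (hε : 0 < ε) : ∃ δ : ℝ, 0 < δ ∧ ∀ y : R2 n, μ.real (closedBall y δ) ≤ ε := by
  have := hμ.prob
  have h1 : ∀ z : R2 n, ∃ U : Set (R2 n), {z} ⊆ U ∧ IsOpen U ∧ μ U < ENNReal.ofReal ε := by
    intro z
    obtain ⟨U, hU, hUo, hlt⟩ := Set.exists_isOpen_lt_of_lt {z} (ENNReal.ofReal ε)
      (by rw [hna]; exact ENNReal.ofReal_pos.2 hε : μ {z} < ENNReal.ofReal ε)
    exact ⟨U, hU, hUo, hlt⟩
  choose U hU hUo hUlt using h1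
  obtain ⟨δ, hδ, hleb⟩ := lebesgue_number_lemma_of_metric
    (isCompact_closedBall (0 : R2 n) (S + 1)) hUo
    (fun z _ => mem_iUnion.2 ⟨z, hU z rfl⟩)
  refine ⟨min (δ / 2) (1 / 2), by positivity, fun y => ?_⟩
  by_cases hy : y ∈ closedBall (0 : R2 n) (S + 1)
  · obtain ⟨i, hi⟩ := hleb y hy
    have h2 : closedBall y (min (δ / 2) (1 / 2)) ⊆ U i :=
      (closedBall_subset_ball (lt_of_le_of_lt (min_le_left _ _) (by linarith))).trans hi
    have h3 := (measure_mono h2).trans (hUlt i).le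
    rw [Measure.real]
    exact ENNReal.toReal_le_of_le_ofReal hε.le h3
  · have h2 : μ (closedBall y (min (δ / 2) (1 / 2))) = 0 := by
      refine measure_mono_null ?_ hμ.supp
      intro z hz hzS
      apply hy
      rw [mem_closedBall, dist_zero_right]
      rw [mem_closedBall, dist_eq_norm] at hz
      have h3 : ‖z - y‖ ≤ 1 / 2 := hz.trans (min_le_right _ _)
      have h4 : ‖z‖ ≤ S := hzS
      have h5 := norm_sub_norm_le y z
      rw [norm_sub_rev] at h5
      linarith
    rw [Measure.real, h2]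
    simp [hε.le]

/-- a bound for the differentials of the displacements of a compact family -/
theorem fderiv_bound {C : Type} [TopologicalSpace C] [CompactSpace C] (f : C(C, SympCt n)) :
    ∃ (m : ℕ) (B : ℝ), 0 ≤ B ∧ (∀ p x, ‖fderiv ℝ (hh (f p)) x‖ ≤ B) ∧
      ∀ p x, (m : ℝ) < ‖x‖ → fderiv ℝ (hh (f p)) x = 0 := by
  obtain ⟨m, hm⟩ := supp_unif (isCompact_range f.continuous)
  have hfd : ∀ p x, fderiv ℝ (hh (f p)) x =
      fderiv ℝ (f p).toEquiv x - ContinuousLinearMap.id ℝ (R2 n) := by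
    intro p x
    exact ((((f p).smooth.differentiable (by simp)).differentiableAt.hasFDerivAt).sub
        (hasFDerivAt_id x)).fderiv
  have hc : Continuous (fun z : C × R2 n => fderiv ℝ (hh (f z.1)) z.2) := by
    have h1 : Continuous (fun z : C × R2 n => fderiv ℝ (f z.1).toEquiv z.2) :=
      (JS.of_continuous f.continuous 1).2.2.cont
    simp_rw [hfd]
    exact h1.sub continuous_const
  obtain ⟨B, hB⟩ := (isCompact_univ.prod (isCompact_closedBall (0 : R2 n) m)).exists_bound_of_continuousOn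
    hc.continuousOn
  have hz : ∀ p x, (m : ℝ) < ‖x‖ → fderiv ℝ (hh (f p)) x = 0 := by
    intro p x hx
    rw [hfd, ca5_fderiv_far (hm _ ⟨p, rfl⟩) hx, sub_self]
  refine ⟨m, max B 0, le_max_right _ _, fun p x => ?_, hz⟩
  rcases le_or_gt ‖x‖ m with h | h
  · exact (hB (p, x) ⟨mem_univ _, by simpa using h⟩).trans (le_max_left _ _)
  · rw [hz p x h, norm_zero]
    exact le_max_right _ _

/-- at large scales the averaged differentials of the displacements are small -/
theorem far {μ : Measure (R2 n)} {S : ℝ} (hμ : BS μ S) (hna : ∀ z : R2 n, μ {z} = 0) {C : Type}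
    [TopologicalSpace C] [CompactSpace C] (f : C(C, SympCt n)) {ε : ℝ} (hε : 0 < ε) :
    ∃ R : ℝ, 0 < R ∧ ∀ p x, ‖∫ z, fderiv ℝ (hh (f p)) (x + R • z) ∂μ‖ ≤ ε := by
  have := hμ.prob
  obtain ⟨m, B, hB0, hB, hm⟩ := fderiv_bound f
  obtain ⟨δ, hδ, hc⟩ := conc hμ hna (ε := ε / (B + 1)) (by positivity)
  set R : ℝ := (m + 1) / δ with hR
  have hR0 : 0 < R := by positivity
  refine ⟨R, hR0, fun p x => ?_⟩
  have hpt : ∀ z : R2 n, ‖fderiv ℝ (hh (f p)) (x + R • z)‖ ≤
      (closedBall (-(R⁻¹ • x)) δ).indicator (fun _ => B) z := by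
    intro z
    by_cases hz : z ∈ closedBall (-(R⁻¹ • x)) δ
    · rw [indicator_of_mem hz]
      exact hB _ _
    · rw [indicator_of_notMem hz]
      have h1 : fderiv ℝ (hh (f p)) (x + R • z) = 0 := by
        apply hm
        rw [mem_closedBall, not_le, dist_eq_norm] at hz
        have h2 : x + R • z = R • (z - -(R⁻¹ • x)) := by
          rw [sub_neg_eq_add, smul_add, smul_smul, mul_inv_cancel₀ hR0.ne', one_smul, add_comm]
        rw [h2, norm_smul, Real.norm_of_nonneg hR0.le]
        have h3 : R * δ = m + 1 := by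
          rw [hR]
          field_simp
        nlinarith
      rw [h1, norm_zero]
  have hint : Integrable ((closedBall (-(R⁻¹ • x)) δ).indicator (fun _ : R2 n => B)) μ :=
    (integrable_const B).indicator measurableSet_closedBall
  calc ‖∫ z, fderiv ℝ (hh (f p)) (x + R • z) ∂μ‖
      ≤ ∫ z, (closedBall (-(R⁻¹ • x)) δ).indicator (fun _ : R2 n => B) z ∂μ :=
        norm_integral_le_of_norm_le hint (Filter.Eventually.of_forall hpt)
    _ = μ.real (closedBall (-(R⁻¹ • x)) δ) * B := by
        rw [integral_indicator measurableSet_closedBall, setIntegral_const, smul_eq_mul]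
    _ ≤ ε / (B + 1) * B := mul_le_mul_of_nonneg_right (hc _) hB0
    _ ≤ ε := by
        rw [div_mul_eq_mul_div, div_le_iff₀ (by positivity)]
        nlinarith

theorem NR_zero {μ : Measure (R2 n)} {S : ℝ} (hμ : BS μ S) (φ : SympCt n) (x : R2 n) :
    Pool.Agent.W5h49.EC.NR (AM μ φ 0 x) := by
  have := hμ.prob
  refine NR_of_tame fun v hv => ?_
  have e : ∀ w, AM μ φ 0 x w = D φ x w := by
    intro w
    unfold AM
    simp
  rw [e, e]
  have h2 : omega (D φ x v) (D φ x (J v)) = omega v (J v) := φ.symplectic x v (J v)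
  rw [h2, omJ]
  exact nsqPos hv

theorem NR_id' : Pool.Agent.W5h49.EC.NR (ContinuousLinearMap.id ℝ (R2 n)) := by
  refine NR_of_tame fun v hv => ?_
  simp only [ContinuousLinearMap.id_apply]
  rw [omJ]
  exact nsqPos hv

/-- **Two families.** -/
theorem two_families {μ : Measure (R2 n)} {S : ℝ} (hμ : BS μ S) (C : Type)
    [TopologicalSpace C] [CompactSpace C] (f g : C(C, SympCt n)) (R : C(C, ℝ))
    (hR : ∀ p, 0 ≤ R p) (hR0 : ∀ p, R p = 0 → f p = g p)
    (hf : ∀ (p : C) (r : ℝ), 0 < r → r ≤ R p → ∀ x, Pool.Agent.W5h49.EC.NR (AM μ (f p) r x))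
    (hg : ∀ (p : C) (r : ℝ), 0 < r → r ≤ R p → ∀ x, Pool.Agent.W5h49.EC.NR (AM μ (g p) r x))
    (hfg : ∀ (p : C) (t : ℝ), 0 ≤ t → t ≤ 1 → 0 < R p → ∀ x,
      Pool.Agent.W5h49.EC.NR (fun v => (1 - t) • AM μ (f p) (R p) x v +
        t • AM μ (g p) (R p) x v)) :
    f.HomotopicRel g {p | R p = 0 ∨ (f p = one ∧ g p = one)} := by
  refine kernel hμ C f g R hR hR0 (fun p r h0 h1 x => ?_) (fun p r h0 h1 x => ?_)
    (fun p t h0 h1 x => ?_)
  · rcases eq_or_lt_of_le h0 with h | h
    · rw [← h]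
      exact NR_zero hμ _ _
    · exact hf p r h h1 x
  · rcases eq_or_lt_of_le h0 with h | h
    · rw [← h]
      exact NR_zero hμ _ _
    · exact hg p r h h1 x
  · rcases eq_or_lt_of_le (hR p) with h | h
    · have h2 := hR0 p h.symm
      have h3 : (fun v => (1 - t) • AM μ (f p) (R p) x v + t • AM μ (g p) (R p) x v) =
          AM μ (g p) 0 x := by
        funext v
        rw [h2, ← h, ← add_smul, sub_add_cancel, one_smul]
      rw [h3]
      exact NR_zero hμ _ _
    · exact hfg p t h0 h1 h x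

/-- **Measures without atoms.** -/
theorem null_family {μ : Measure (R2 n)} {S : ℝ} (hμ : BS μ S) (hna : ∀ z : R2 n, μ {z} = 0)
    (C : Type) [TopologicalSpace C] [CompactSpace C] (f : C(C, SympCt n))
    (hf : ∀ (p : C) (r : ℝ), 0 < r → ∀ x, Pool.Agent.W5h49.EC.NR (AM μ (f p) r x)) :
    f.HomotopicRel (ContinuousMap.const C one) {p | f p = one} := by
  have := hμ.prob
  have hopen : IsOpen {A : R2 n →L[ℝ] R2 n | Pool.Agent.W5h49.EC.NR A} :=
    Pool.Agent.W5h49.EC.nr_open n
  obtain ⟨δ, hδ, hball⟩ := Metric.isOpen_iff.1 hopen (ContinuousLinearMap.id ℝ (R2 n)) NR_id'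
  obtain ⟨R, hR, hfar⟩ := far hμ hna f (ε := δ / 2) (by positivity)
  have key := two_families hμ C f (ContinuousMap.const C one) (ContinuousMap.const C R)
    (fun _ => hR.le) (fun p hp => absurd hp hR.ne') (fun p r h _ x => hf p r h x) ?_ ?_
  · exact Pool.Agent.W5h49.EC.rel_mono key fun p hp => Or.inr ⟨hp, rfl⟩
  · intro p r _ _ x
    have e : (AM μ ((ContinuousMap.const C (one : SympCt n)) p) r x : R2 n → R2 n) =
        (ContinuousLinearMap.id ℝ (R2 n)) := by
      funext v
      exact AM_one hμ r x v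
    rw [e]
    exact NR_id'
  · intro p t ht0 ht1 _ x
    have e : (fun v => (1 - t) • AM μ (f p) R x v +
        t • AM μ ((ContinuousMap.const C (one : SympCt n)) p) R x v) =
        (ContinuousLinearMap.id ℝ (R2 n) +
          (1 - t) • ∫ z, fderiv ℝ (hh (f p)) (x + R • z) ∂μ : R2 n →L[ℝ] R2 n) := by
      funext v
      have h1 : AM μ ((ContinuousMap.const C (one : SympCt n)) p) R x v = v := AM_one hμ R x v
      rw [h1, AM_eq hμ]
      simp only [_root_.add_apply, ContinuousLinearMap.id_apply, _root_.smul_apply]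
      module
    change Pool.Agent.W5h49.EC.NR (fun v => (1 - t) • AM μ (f p) R x v +
        t • AM μ ((ContinuousMap.const C (one : SympCt n)) p) R x v)
    rw [e]
    apply hball
    rw [mem_ball, dist_eq_norm, add_sub_cancel_left, norm_smul,
      Real.norm_of_nonneg (by linarith : (0 : ℝ) ≤ 1 - t)]
    have h1 := hfar p x
    have h2 := norm_nonneg (∫ z, fderiv ℝ (hh (f p)) (x + R • z) ∂μ)
    nlinarith

end Pool.Agent.Run7.h233.EC
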