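import Pool.Agent.Run7.h233.EC.Meas

/-!
# Homotopies when no differential averaged along a measure reverses `ω`
-/

set_option autoImplicit false
set_option maxHeartbeats 1000000

open scoped ContDiff Topology
open MeasureTheory Set Metric

namespace Pool.Agent.Run7.h233.EC

open Pool.Agent.W71.EC Pool.Agent.W5h83.HG Pool.Agent.W5h49.EC

theorem exists_family {n : ℕ} {μ : Measure (R2 n)} {S : ℝ} (hμ : BS μ S) (C : Type)
    [TopologicalSpace C] [CompactSpace C] (f g : C(C, SympCt n)) (R : C(C, ℝ))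
    (hR : ∀ p, 0 ≤ R p) :
    ∃ (F : C → ℝ × R2 n → R2 n) (K : Set (R2 n)) (c r : ℝ → ℝ), (∀ p, ContDiff ℝ ∞ (F p)) ∧
    (∀ k, JC k (R2 n) (fun (q : C × ℝ) (x : R2 n) => F q.1 (q.2, x))) ∧ IsCompact K ∧
    (∀ p t x, x ∉ K → F p (t, x) = x) ∧ (∀ p x, F p (0, x) = (f p).toEquiv x) ∧
    (∀ p x, F p (1, x) = (g p).toEquiv x) ∧ (∀ t, 0 ≤ r t ∧ r t ≤ 1) ∧
    (∀ t, 0 ≤ c t ∧ c t ≤ 1) ∧ (∀ t, c t = 0 ∨ c t = 1 ∨ r t = 1) ∧
    (∀ p t x v, DF (F p) t x v =
      (1 - c t) • AM μ (f p) (r t * R p) x v + c t • AM μ (g p) (r t * R p) x v) ∧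
    ∀ p, R p = 0 → f p = g p → ∀ t x, F p (t, x) = F p (0, x) := by
  set c : ℝ → ℝ := fun t => Real.smoothTransition (3 * t - 1) with hc
  set r : ℝ → ℝ := fun t =>
    Real.smoothTransition (3 * t) * Real.smoothTransition (3 - 3 * t) with hr
  have hcs : ContDiff ℝ ∞ c :=
    Real.smoothTransition.contDiff.comp ((contDiff_const.mul contDiff_id).sub contDiff_const)
  have hrs : ContDiff ℝ ∞ r :=
    (Real.smoothTransition.contDiff.comp
      (contDiff_const.mul contDiff_id)).mul (Real.smoothTransition.contDiff.comp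
        (contDiff_const.sub (contDiff_const.mul contDiff_id)))
  have hc0 : ∀ t, 0 ≤ c t ∧ c t ≤ 1 := fun t =>
    ⟨Real.smoothTransition.nonneg _, Real.smoothTransition.le_one _⟩
  have hr0 : ∀ t, 0 ≤ r t ∧ r t ≤ 1 := by
    intro t
    have h1 := Real.smoothTransition.nonneg (3 * t)
    have h2 := Real.smoothTransition.le_one (3 * t)
    have h3 := Real.smoothTransition.nonneg (3 - 3 * t)
    have h4 := Real.smoothTransition.le_one (3 - 3 * t)
    exact ⟨mul_nonneg h1 h3, mul_le_one₀ h2 h3 h4⟩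
  obtain ⟨T0, hT0⟩ := (isCompact_range R.continuous).bddAbove
  set T : ℝ := max T0 0 with hT
  have hRT : ∀ p, R p ≤ T := fun p => (hT0 ⟨p, rfl⟩).trans (le_max_left _ _)
  have hT1 : 0 ≤ T := le_max_right _ _
  have hrR0 : ∀ t p, 0 ≤ r t * R p := fun t p => mul_nonneg (hr0 t).1 (hR p)
  have hrR1 : ∀ t p, r t * R p ≤ T := fun t p =>
    (mul_le_of_le_one_left (hR p) (hr0 t).2).trans (hRT p)
  obtain ⟨m1, hm1⟩ := supp_unif (isCompact_range f.continuous)
  obtain ⟨m2, hm2⟩ := supp_unif (isCompact_range g.continuous)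
  have hB1 := HM_supp hμ m1 hT1
  have hB2 := HM_supp hμ m2 hT1
  have hDF : ∀ p t x, DF (fun q : ℝ × R2 n => q.2 + ((1 - c q.1) • HM μ (f p) (r q.1 * R p) q.2 +
      c q.1 • HM μ (g p) (r q.1 * R p) q.2)) t x =
      ContinuousLinearMap.id ℝ (R2 n) +
        ((1 - c t) • (∫ y, fderiv ℝ (hh (f p)) (x + (r t * R p) • y) ∂μ) +
        c t • ∫ y, fderiv ℝ (hh (g p)) (x + (r t * R p) • y) ∂μ) := by
    intro p t x
    exact ((hasFDerivAt_id x).add (((HM_fderiv hμ (f p) (r t * R p) x).const_smul (1 - c t)).add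
      ((HM_fderiv hμ (g p) (r t * R p) x).const_smul (c t)))).fderiv
  have hhJ : ∀ (f : C(C, SympCt n)) (k : ℕ), JC k (R2 n) (fun p x => hh (f p) x) := by
    intro f k
    have h1 := (JS.of_continuous f.continuous k).add
      (JC.ofSmooth (P := C) (φ := fun x : R2 n => -x) contDiff_neg k)
    have h2 : (fun p x => hh (f p) x) = fun p x => (f p).toEquiv x + -x := by
      funext p x
      rw [hh, sub_eq_add_neg]
    rw [h2]
    exact h1
  have hHJ : ∀ (f : C(C, SympCt n)) (k : ℕ),
      JC k (R2 n) (fun (q : C × ℝ) x => HM μ (f q.1) (r q.2 * R q.1) x) := by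
    intro f k
    exact JC_avg hμ (σ := fun q : C × ℝ => r q.2 * R q.1)
      ((hrs.continuous.comp continuous_snd).mul (R.continuous.comp continuous_fst)) k
      ((hhJ f k).param continuous_fst)
  refine ⟨fun p q => q.2 + ((1 - c q.1) • HM μ (f p) (r q.1 * R p) q.2 +
      c q.1 • HM μ (g p) (r q.1 * R p) q.2),
    closedBall 0 (max (m1 + T * S) (m2 + T * S)), c, r, ?_, ?_, isCompact_closedBall _ _, ?_, ?_, ?_, hr0, hc0, ?_, ?_,
    ?_⟩
  · intro p
    apply contDiff_snd.add
    have e1 : ContDiff ℝ ∞ (fun q : ℝ × R2 n => (r q.1 * R p, q.2)) :=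
      ((hrs.comp contDiff_fst).mul contDiff_const).prodMk contDiff_snd
    have e2 : ContDiff ℝ ∞ (fun p : ℝ × R2 n => c p.1) := hcs.comp contDiff_fst
    exact ((contDiff_const.sub e2).smul ((HM_smooth hμ (f p)).comp e1)).add
      (e2.smul ((HM_smooth hμ (g p)).comp e1))
  · intro k
    have h1 : Continuous (fun q : C × ℝ => 1 - c q.2) :=
      continuous_const.sub (hcs.continuous.comp continuous_snd)
    have h2 : Continuous (fun q : C × ℝ => c q.2) := hcs.continuous.comp continuous_snd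
    exact (JC.ofSmooth (P := C × ℝ) (φ := fun x : R2 n => x) contDiff_id k).add
      (((hHJ f k).smulP h1).add ((hHJ g k).smulP h2))
  · intro p t x hx
    have h1 : HM μ (f p) (r t * R p) x = 0 :=
      hB1 (f p) (hm1 _ ⟨p, rfl⟩) (r t * R p) (hrR0 t p) (hrR1 t p) x
        (fun h => hx (closedBall_subset_closedBall (le_max_left _ _) h))
    have h2 : HM μ (g p) (r t * R p) x = 0 :=
      hB2 (g p) (hm2 _ ⟨p, rfl⟩) (r t * R p) (hrR0 t p) (hrR1 t p) x
        (fun h => hx (closedBall_subset_closedBall (le_max_right _ _) h))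
    show x + ((1 - c t) • HM μ (f p) (r t * R p) x + c t • HM μ (g p) (r t * R p) x) = x
    rw [h1, h2, smul_zero, smul_zero, add_zero, add_zero]
  · intro p x
    show x + ((1 - c 0) • HM μ (f p) (r 0 * R p) x + c 0 • HM μ (g p) (r 0 * R p) x) =
      (f p).toEquiv x
    have h1 : c 0 = 0 := Real.smoothTransition.zero_of_nonpos (by norm_num)
    have h2 : r 0 = 0 := by
      show Real.smoothTransition (3 * 0) * _ = 0
      rw [mul_zero, Real.smoothTransition.zero, zero_mul]
    rw [h1, h2, zero_mul, HM_zero hμ]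
    simp [hh]
  · intro p x
    show x + ((1 - c 1) • HM μ (f p) (r 1 * R p) x + c 1 • HM μ (g p) (r 1 * R p) x) =
      (g p).toEquiv x
    have h1 : c 1 = 1 := Real.smoothTransition.one_of_one_le (by norm_num)
    have h2 : r 1 = 0 := by
      show _ * Real.smoothTransition (3 - 3 * 1) = 0
      have : (3 : ℝ) - 3 * 1 = 0 := by norm_num
      rw [this, Real.smoothTransition.zero, mul_zero]
    rw [h1, h2, zero_mul, HM_zero hμ (g p)]
    simp [hh]
  · intro t
    rcases le_total (3 * t) 1 with ht | ht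
    · left
      exact Real.smoothTransition.zero_of_nonpos (by linarith)
    · rcases le_total (3 * t) 2 with ht2 | ht2
      · right; right
        show Real.smoothTransition (3 * t) * Real.smoothTransition (3 - 3 * t) = 1
        rw [Real.smoothTransition.one_of_one_le ht,
          Real.smoothTransition.one_of_one_le (by linarith), mul_one]
      · right; left
        exact Real.smoothTransition.one_of_one_le (by linarith)
  · intro p t x v
    rw [hDF, AM_eq hμ (f p), AM_eq hμ (g p)]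
    simp only [_root_.add_apply, ContinuousLinearMap.id_apply, _root_.smul_apply,
      smul_add]
    have h5 : (1 - c t) • v + c t • v = v := by rw [← add_smul]; simp
    calc _ = ((1 - c t) • v + c t • v) + _ := by rw [h5]
      _ = _ := by abel
  · intro p hp hfg t x
    have h1 : ∀ t, x + ((1 - c t) • HM μ (f p) (r t * R p) x +
        c t • HM μ (g p) (r t * R p) x) = x + hh (f p) x := by
      intro t
      rw [← hfg, hp, mul_zero, HM_zero hμ, ← add_smul]
      simp
    show x + ((1 - c t) • HM μ (f p) (r t * R p) x + c t • HM μ (g p) (r t * R p) x) =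
      x + ((1 - c 0) • HM μ (f p) (r 0 * R p) x + c 0 • HM μ (g p) (r 0 * R p) x)
    rw [h1, h1]


/-- **The kernel theorem without norms.** -/
theorem kernel {n : ℕ} {μ : Measure (R2 n)} {S : ℝ} (hμ : BS μ S) (C : Type) [TopologicalSpace C] [CompactSpace C]
    (f g : C(C, SympCt n)) (R : C(C, ℝ)) (hR : ∀ p, 0 ≤ R p) (hR0 : ∀ p, R p = 0 → f p = g p)
    (hf : ∀ (p : C) (r : ℝ), 0 ≤ r → r ≤ R p → ∀ x, NR (AM μ (f p) r x))
    (hg : ∀ (p : C) (r : ℝ), 0 ≤ r → r ≤ R p → ∀ x, NR (AM μ (g p) r x))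
    (hfg : ∀ (p : C) (t : ℝ), 0 ≤ t → t ≤ 1 → ∀ x,
      NR (fun v => (1 - t) • AM μ (f p) (R p) x v + t • AM μ (g p) (R p) x v)) :
    f.HomotopicRel g {p | R p = 0 ∨ (f p = one ∧ g p = one)} := by
  obtain ⟨F, K, c, r, hF, hJ, hK, hF0, hF1, hF2, hr, hc, hcr, hDF, hconst⟩ :=
    exists_family hμ C f g R hR
  have h := ND.moser_fam_nd (flow_jc nem ev n) C F K hF hJ hK hF0 ?_ f g hF1 hF2
  · refine rel_mono h fun p hp t x => ?_
    rcases hp with hp | ⟨hfp, hgp⟩
    · exact hconst p hp (hR0 p hp) t x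
    · have h1 : ∀ t x, F p (t, x) = x := by
        intro t x
        have hs : ContDiff ℝ ∞ (fun y => F p (t, y)) :=
          (hF p).comp (contDiff_const.prodMk contDiff_id)
        refine eq_id_of_fderiv hs hK (fun x hx => hF0 p t x hx) (fun x v => ?_) x
        have h1 := hDF p t x v
        rw [hfp, hgp, AM_one hμ, ← add_smul] at h1
        unfold DF at h1
        rw [h1]
        rw [show (1 - c t + c t : ℝ) = 1 by ring, one_smul]
      rw [h1, h1]
  · intro p t x s hs0 hs1 v hv
    refine nd_of_NR ?_ s hs0 hs1 v hv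
    have hr0 : 0 ≤ r t * R p := mul_nonneg (hr t).1 (hR p)
    have hr1 : r t * R p ≤ R p := mul_le_of_le_one_left (hR p) (hr t).2
    have e : (DF (F p) t x : R2 n → R2 n) = fun v =>
      (1 - c t) • AM μ (f p) (r t * R p) x v + c t • AM μ (g p) (r t * R p) x v :=
      funext (hDF p t x)
    rw [e]
    rcases hcr t with h | h | h
    · rw [h]
      simp only [sub_zero, one_smul, zero_smul, add_zero]
      exact hf p _ hr0 hr1 x
    · rw [h]
      simp only [sub_self, one_smul, zero_smul, zero_add]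
      exact hg p _ hr0 hr1 x
    · rw [h, one_mul]
      exact hfg p (c t) (hc t).1 (hc t).2 x


end Pool.Agent.Run7.h233.EC
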