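import Mathlib
import Pool.Agent.W71.EC.Gen
import Pool.Agent.W5h49.EC.Defs5

/-!
# Symplectic linear maps and a splitting of `ℝ²ⁿ`
-/

set_option autoImplicit false

open Set

namespace Pool.Agent.Run7.h233.EC

open Pool.Agent.W71.EC

variable {n : ℕ}

theorem omega_nondeg' (u : R2 n) (h : ∀ v, omega u v = 0) : u = 0 := omega_nondeg h

theorem omega_neg_left (u v : R2 n) : omega (-u) v = -omega u v := by
  have h := omega_smul_left (-1) u v
  rw [neg_one_smul] at h
  linarith

theorem omega_zero_left (v : R2 n) : omega 0 v = 0 := by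
  have h := omega_smul_left 0 v v
  rw [zero_smul, zero_mul] at h
  exact h

/-- `A` never reverses the form -/
def NR (A : R2 n → R2 n) : Prop :=
  ∀ v : R2 n, v ≠ 0 → ∀ c : ℝ, 0 ≤ c → ∃ w : R2 n, omega (A v) (A w) ≠ -c * omega v w

/-- the block of `X` on the image of `π` never reverses the form, with all shifts -/
def BlockNR (π : R2 n →ₗ[ℝ] R2 n) (X : R2 n → R2 n) : Prop :=
  ∀ μ : ℝ, 0 ≤ μ → ∀ c : ℝ, 0 ≤ c → ∀ v : R2 n, π v = v → v ≠ 0 →
    ∃ w : R2 n, π w = w ∧ omega (π (X v) + μ • v) (π (X w) + μ • w) ≠ -c * omega v w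

section

variable {π : R2 n →ₗ[ℝ] R2 n} (hπ : ∀ v, π (π v) = π v) (hs : ∀ u v, omega (π u) v = omega u (π v))
  {X Y : R2 n →ₗ[ℝ] R2 n} (hX : ∀ u v, omega (X u) (X v) = omega u v) (hXY : ∀ v, X (Y v) = v)

include hX hXY in
theorem adj1 (u v : R2 n) : omega (Y u) v = omega u (X v) := by
  rw [← hX, hXY]

include hX hXY in
theorem adj2 (u v : R2 n) : omega u (Y v) = omega (X u) v := by
  rw [← hX, hXY]

include hπ hs hX hXY in
/-- first form of the hypothesis -/
theorem BlockNR.one (h : BlockNR π X) {μ : ℝ} (hμ : 0 ≤ μ) {c : ℝ} (hc : 0 ≤ c) {v : R2 n}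
    (hv : π v = v) (he : π (Y (π (X v) + μ • v)) + μ • (π (X v) + μ • v) = -(c • v)) : v = 0 := by
  by_contra hv0
  obtain ⟨w, hw, hne⟩ := h μ hμ c hc v hv hv0
  apply hne
  have h1 : omega (π (Y (π (X v) + μ • v)) + μ • (π (X v) + μ • v)) w = -(c * omega v w) := by
    rw [he, omega_neg_left, omega_smul_left]
  rw [omega_add_left, omega_smul_left, hs, hw, adj1 hX hXY] at h1
  have hp : π (π (X v) + μ • v) = π (X v) + μ • v := by rw [map_add, hπ, map_smul, hv]
  have h2 : omega (π (X v) + μ • v) (X w) = omega (π (X v) + μ • v) (π (X w)) := by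
    rw [← hs, hp]
  rw [h2] at h1
  rw [omega_add_right, omega_smul_right]
  linarith

include hπ hs hX hXY in
/-- the adjoint block is injective -/
theorem BlockNR.inj (h : BlockNR π X) {μ : ℝ} (hμ : 0 ≤ μ) {v : R2 n}
    (hv : π v = v) (he : π (Y v) + μ • v = 0) : v = 0 := by
  set T : R2 n →ₗ[ℝ] R2 n := (π ∘ₗ X + μ • LinearMap.id) ∘ₗ π + (LinearMap.id - π) with hT
  have hTe : ∀ v, T v = π (X (π v)) + μ • π v + (v - π v) := fun v => rfl
  have hinj : Function.Injective T := by
    rw [injective_iff_map_eq_zero]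
    intro w hw
    rw [hTe] at hw
    have h1 := congrArg π hw
    rw [map_add, map_add, map_sub, map_smul, map_zero, hπ, hπ, sub_self, add_zero] at h1
    have h2 : w - π w = 0 := by
      rw [h1, zero_add] at hw
      exact hw
    have h3 : π w = w := (sub_eq_zero.1 h2).symm
    rw [h3] at h1
    refine h.one hπ hs hX hXY hμ le_rfl h3 ?_
    rw [h1]
    simp
  have hsurj : Function.Surjective T := LinearMap.injective_iff_surjective.1 hinj
  refine omega_nondeg' v fun z => ?_
  obtain ⟨w, rfl⟩ := hsurj z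
  rw [hTe, omega_add_right, omega_add_right, omega_sub_right, omega_smul_right, ← hs v w, hv, sub_self,
    add_zero, ← hs, hv]
  have h1 : omega (π (Y v) + μ • v) (π w) = 0 := by rw [he, omega_zero_left]
  rw [omega_add_left, omega_smul_left, hs, hπ, adj1 hX hXY, ← hs v w, hv] at h1
  exact h1

include hπ hs hX hXY in
/-- second form of the hypothesis -/
theorem BlockNR.two (h : BlockNR π X) {μ : ℝ} (hμ : 0 ≤ μ) {c : ℝ} (hc : 0 ≤ c) {v : R2 n}
    (hv : π v = v) (he : π (X (π (Y v) + μ • v)) + μ • (π (Y v) + μ • v) = -(c • v)) : v = 0 := by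
  set η := π (Y v) + μ • v with hη
  have hπη : π η = η := by rw [hη, map_add, hπ, map_smul, hv]
  have h1 : η = 0 := by
    refine h.one hπ hs hX hXY hμ hc hπη ?_
    rw [he]
    rw [map_neg, map_neg, map_smul, map_smul]
    rw [hη]
    module
  exact h.inj hπ hs hX hXY hμ hv h1

include hπ hs hX hXY in
/-- **The splitting lemma.** -/
theorem split_NR (h1 : ∀ μ : ℝ, 0 ≤ μ → ∀ v, π v = v → π (X v) + μ • v = 0 → v = 0)
    (h2 : ∀ μ : ℝ, 0 ≤ μ → ∀ c : ℝ, 0 ≤ c → ∀ v, π v = v →
      π (X (π (Y v) + μ • v)) + μ • (π (Y v) + μ • v) = -(c • v) → v = 0)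
    {t : ℝ} (ht : t ∈ Icc (0 : ℝ) 1) : NR fun v => v + t • π (X v - v) := by
  obtain ⟨ht0, ht1⟩ := ht
  intro v hv c hc
  by_contra hcon
  push Not at hcon
  set y : R2 n := v + t • π (X v - v) with hy
  have hc1 : (1 + c : ℝ) ≠ 0 := by positivity
  rcases eq_or_lt_of_le ht0 with h0 | h0
  · apply hv
    refine omega_nondeg' v fun w => ?_
    have h3 := hcon w
    rw [hy, ← h0] at h3
    simp only [zero_smul, add_zero] at h3
    have h4 : (1 + c) * omega v w = 0 := by linarith
    exact (mul_eq_zero.1 h4).resolve_left hc1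
  set ξ := π y with hξ
  have hπξ : π ξ = ξ := hπ y
  have I : y + t • (Y ξ - ξ) = -(c • v) := by
    have h3 : y + t • (Y ξ - ξ) + c • v = 0 := by
      refine omega_nondeg' _ fun w => ?_
      have h4 := hcon w
      rw [omega_add_right, omega_smul_right, ← hs, omega_sub_right] at h4
      rw [omega_add_left, omega_add_left, omega_smul_left, omega_smul_left, omega_sub_left, adj1 hX hXY]
      linarith
    exact eq_neg_of_add_eq_zero_left h3
  have II : π ((X v : R2 n) - v) = π (X v) - π v := map_sub _ _ _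
  have e2 : ξ + t • (π (Y ξ) - ξ) = -(c • π v) := by
    have h3 := congrArg π I
    rw [map_add, map_smul, map_sub, map_neg, map_smul, hπξ] at h3
    exact h3
  have e1 : (1 + c) • (v - π v) = -(t • (Y ξ - π (Y ξ))) := by
    have h3 : y - ξ = v - π v := by
      rw [hξ, hy, map_add, map_smul, hπ]
      module
    linear_combination (norm := module) I - e2 - h3
  have e3 : ξ = π v + t • (π (X v) - π v) := by
    rw [hξ, hy, map_add, map_smul, hπ, II]
  have e3' : (1 + c) • π (X (v - π v)) = -(t • (ξ - π (X (π (Y ξ))))) := by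
    have h3 := congrArg (fun z => π (X z)) e1
    simp only [map_smul, map_neg] at h3
    rw [map_sub X (Y ξ), hXY, map_sub π ξ, hπξ] at h3
    exact h3
  have hsplit : π (X v) = π (X (π v)) + π (X (v - π v)) := by
    rw [← map_add, ← map_add, add_sub_cancel]
  have e4 : (1 + c + t ^ 2) • ξ - t ^ 2 • π (X (π (Y ξ))) =
      (1 + c) • ((1 - t) • π v + t • π (X (π v))) := by
    rw [hsplit] at e3
    linear_combination (norm := module) (1 + c) • e3 + t • e3'
  have e5 : (1 - t) • ξ + t • π (Y ξ) = -(c • π v) := by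
    linear_combination (norm := module) e2
  have e6 : (1 - t) • π (X ξ) + t • π (X (π (Y ξ))) = -(c • π (X (π v))) := by
    have h3 := congrArg (fun z => π (X z)) e5
    simp only [map_add, map_smul, map_neg] at h3
    exact h3
  set μ : ℝ := (1 + c) * (1 - t) / t with hμ
  have hμ0 : 0 ≤ μ := div_nonneg (mul_nonneg (by linarith) (by linarith)) ht0
  have htμ : t * μ = (1 + c) * (1 - t) := by
    rw [hμ]
    field_simp
  set d : ℝ := c * ((1 + c) * (2 - t) + t) / t with hd
  have hd0 : 0 ≤ d := div_nonneg (mul_nonneg hc (by nlinarith)) ht0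
  have htd : t * d = c * ((1 + c) * (2 - t) + t) := by
    rw [hd]
    field_simp
  have hξ0 : ξ = 0 := by
    refine h2 μ hμ0 d hd0 ξ hπξ ?_
    have h3 : (t * t) • (π (X (π (Y ξ) + μ • ξ)) + μ • (π (Y ξ) + μ • ξ)) =
        (t * t) • (-(d • ξ)) := by
      rw [map_add X, map_smul X, map_add π, map_smul π]
      have h4 : (t * t) • (π (X (π (Y ξ))) + μ • π (X ξ) + μ • (π (Y ξ) + μ • ξ)) =
          (t * t) • π (X (π (Y ξ))) + (t * (t * μ)) • π (X ξ) +
            ((t * (t * μ)) • π (Y ξ) + ((t * μ) * (t * μ)) • ξ) := by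
        module
      have h5 : (t * t) • (-(d • ξ)) = -((t * (t * d)) • ξ) := by module
      rw [h4, h5, htμ, htd]
      linear_combination (norm := module) c • e4 + ((1 + c) * (1 - t)) • e5 + ((1 + c) * t) • e6
    have h6 : (t * t) ≠ 0 := (mul_pos h0 h0).ne'
    exact smul_right_injective _ h6 h3
  have hρ : v = π v := by
    rw [hξ0, map_zero, map_zero, sub_zero, smul_zero, neg_zero] at e1
    exact sub_eq_zero.1 ((smul_eq_zero.1 e1).resolve_left hc1)
  rw [hξ0] at e4
  simp only [map_zero, smul_zero, sub_zero] at e4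
  have e7 := (smul_eq_zero.1 e4.symm).resolve_left hc1
  rw [← hρ] at e7
  apply hv
  refine h1 ((1 - t) / t) (div_nonneg (by linarith) ht0) v hρ.symm ?_
  have h8 : t • (π (X v) + ((1 - t) / t) • v) = 0 := by
    rw [smul_add, smul_smul, mul_div_cancel₀ _ h0.ne', add_comm]
    exact e7
  exact (smul_eq_zero.1 h8).resolve_left h0.ne'

end

end Pool.Agent.Run7.h233.EC
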