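import Pool.Agent.W5h49.EC.KerND
import Pool.Agent.W5h49.EC.MolJC2

/-!
# Averages of families of symplectomorphisms along a measure
-/

set_option autoImplicit false
set_option maxHeartbeats 1000000

open scoped ContDiff Topology
open MeasureTheory Set Metric

namespace Pool.Agent.Run7.h233.EC

open Pool.Agent.W71.EC Pool.Agent.W5h83.HG Pool.Agent.W5h49.EC

variable {n : ℕ}

/-- probability measures with bounded support -/
structure BS (μ : Measure (R2 n)) (S : ℝ) : Prop where
  prob : IsProbabilityMeasure μ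
  pos : 0 ≤ S
  supp : ∀ᵐ z ∂μ, ‖z‖ ≤ S

/-- the averaged displacement -/
noncomputable def HM (μ : Measure (R2 n)) (φ : SympCt n) (s : ℝ) (x : R2 n) : R2 n :=
  ∫ z, hh φ (x + s • z) ∂μ

/-- the averaged differential -/
noncomputable def AM (μ : Measure (R2 n)) (φ : SympCt n) (s : ℝ) (x v : R2 n) : R2 n :=
  ∫ z, D φ (x + s • z) v ∂μ

section

variable {μ : Measure (R2 n)} {S : ℝ} (hμ : BS μ S)

include hμ in
theorem BS.int {E : Type*} [NormedAddCommGroup E] {g : R2 n → E} (hg : Continuous g) :
    Integrable g μ := by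
  have := hμ.prob
  obtain ⟨C, hC⟩ := (isCompact_closedBall (0 : R2 n) S).exists_bound_of_continuousOn
    hg.continuousOn
  refine Integrable.of_bound hg.aestronglyMeasurable C ?_
  filter_upwards [hμ.supp] with z hz
  exact hC z (by simpa using hz)

include hμ in
theorem HM_smooth (φ : SympCt n) :
    ContDiff ℝ ∞ (fun p : ℝ × R2 n => HM μ φ p.1 p.2) := by
  have := hμ.prob
  let χ : ContDiffBump (0 : R2 n) := ⟨S + 1, S + 2, by linarith [hμ.pos], by linarith⟩
  have hg : ContDiff ℝ ∞
      (fun q : (ℝ × R2 n) × R2 n => χ q.2 • hh φ (q.1.2 + q.1.1 • (-q.2))) := by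
    have e1 : ContDiff ℝ ∞ (fun q : (ℝ × R2 n) × R2 n => χ q.2) :=
      χ.contDiff.comp contDiff_snd
    have e3 : ContDiff ℝ ∞ (fun q : (ℝ × R2 n) × R2 n => q.1.1 • (-q.2)) := by
      have := (contDiff_fst.fst : ContDiff ℝ ∞ (fun q : (ℝ × R2 n) × R2 n => q.1.1)).smul
        (contDiff_snd.neg : ContDiff ℝ ∞ (fun q : (ℝ × R2 n) × R2 n => -q.2))
      exact this
    have e2 : ContDiff ℝ ∞ (fun q : (ℝ × R2 n) × R2 n => hh φ (q.1.2 + q.1.1 • (-q.2))) :=
      (hh_smooth φ).comp (contDiff_fst.snd.add e3)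
    exact e1.smul e2
  have h1 := contDiffOn_convolution_right_with_param (𝕜 := ℝ) (μ := μ)
    (n := (⊤ : ℕ∞)) (f := fun _ : R2 n => (1 : ℝ)) (ContinuousLinearMap.lsmul ℝ ℝ)
    (g := fun (p : ℝ × R2 n) (u : R2 n) => χ u • hh φ (p.2 + p.1 • (-u))) (s := univ)
    isOpen_univ χ.hasCompactSupport.isCompact
    (by
      intro p u _ hu
      have : χ u = 0 := image_eq_zero_of_notMem_tsupport hu
      simp [this])
    (locallyIntegrable_const _) (by
      apply ContDiff.contDiffOn
      exact hg)
  rw [univ_prod_univ, contDiffOn_univ] at h1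
  have h2 : ContDiff ℝ ∞ (fun p : ℝ × R2 n => ((p, (0 : R2 n)) : (ℝ × R2 n) × R2 n)) :=
    contDiff_id.prodMk contDiff_const
  have h3 := h1.comp h2
  convert h3 using 1
  funext p
  simp only [HM, Function.comp, convolution_def, ContinuousLinearMap.lsmul_apply, one_smul]
  refine integral_congr_ae ?_
  filter_upwards [hμ.supp] with z hz
  have h4 : χ (0 - z) = 1 := by
    apply χ.one_of_mem_closedBall
    rw [mem_closedBall, dist_zero_right, zero_sub, norm_neg]
    show ‖z‖ ≤ S + 1
    linarith
  rw [h4, one_smul]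
  simp

include hμ in
theorem HM_fderiv (φ : SympCt n) (s : ℝ) (x : R2 n) :
    HasFDerivAt (fun x => HM μ φ s x) (∫ z, fderiv ℝ (hh φ) (x + s • z) ∂μ) x := by
  have := hμ.prob
  obtain ⟨C, hC0, hC⟩ := fderiv_hh_le φ
  have hc1 : ∀ x : R2 n, Continuous (fun z : R2 n => hh φ (x + s • z)) := fun x =>
    (hh_smooth φ).continuous.comp (by fun_prop)
  have hc2 : ∀ x : R2 n, Continuous (fun z : R2 n => fderiv ℝ (hh φ) (x + s • z)) := fun x =>
    ((hh_smooth φ).continuous_fderiv (by simp)).comp (by fun_prop)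
  refine hasFDerivAt_integral_of_dominated_of_fderiv_le (s := univ) Filter.univ_mem
    (F := fun x z => hh φ (x + s • z))
    (F' := fun x z => fderiv ℝ (hh φ) (x + s • z)) (bound := fun _ => C)
    (Filter.Eventually.of_forall fun x => (hμ.int (hc1 x)).aestronglyMeasurable)
    (hμ.int (hc1 x)) (hμ.int (hc2 x)).aestronglyMeasurable
    (Filter.Eventually.of_forall fun y z _ => hC _) (integrable_const C)
    (Filter.Eventually.of_forall fun y z _ => ?_)
  have h1 : HasFDerivAt (hh φ) (fderiv ℝ (hh φ) (z + s • y)) (z + s • y) :=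
    ((hh_smooth φ).differentiable (by simp)).differentiableAt.hasFDerivAt
  have h2 : HasFDerivAt (fun z : R2 n => z + s • y) (ContinuousLinearMap.id ℝ (R2 n)) z :=
    (hasFDerivAt_id z).add_const _
  have h3 := h1.comp z h2
  rw [ContinuousLinearMap.comp_id] at h3
  exact h3

include hμ in
theorem HM_zero (φ : SympCt n) (x : R2 n) : HM μ φ 0 x = hh φ x := by
  have := hμ.prob
  unfold HM
  simp

include hμ in
/-- the averaged differential in terms of the displacement -/
theorem AM_eq (φ : SympCt n) (s : ℝ) (x v : R2 n) :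
    AM μ φ s x v = v + (∫ z, fderiv ℝ (hh φ) (x + s • z) ∂μ) v := by
  have := hμ.prob
  have hc2 : Continuous (fun z : R2 n => fderiv ℝ (hh φ) (x + s • z)) :=
    ((hh_smooth φ).continuous_fderiv (by simp)).comp (by fun_prop)
  rw [ContinuousLinearMap.integral_apply (hμ.int hc2)]
  have h2 : ∀ z : R2 n, D φ z v = v + fderiv ℝ (hh φ) z v := by
    intro z
    have h3 : HasFDerivAt (hh φ) (fderiv ℝ φ.toEquiv z - ContinuousLinearMap.id ℝ (R2 n)) z :=
      ((φ.smooth.differentiable (by simp)).differentiableAt.hasFDerivAt).sub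
        (hasFDerivAt_id z)
    rw [h3.fderiv]
    simp [D]
  unfold AM
  simp_rw [h2]
  rw [integral_add (integrable_const v) (hμ.int (hc2.clm_apply continuous_const))]
  simp

include hμ in
theorem AM_one (s : ℝ) (x v : R2 n) : AM μ (one : SympCt n) s x v = v := by
  have := hμ.prob
  unfold AM
  have h1 : ∀ y, D (one : SympCt n) y v = v := fun y => one_fderiv y v
  simp_rw [h1]
  simp

variable {P : Type} [TopologicalSpace P] {F : Type} [NormedAddCommGroup F] [NormedSpace ℝ F]

include hμ in
/-- continuity of averaged families over arbitrary parameter spaces -/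
theorem cont_avg {G : P → R2 n → F}
    (hG : Continuous (Function.uncurry G)) : Continuous (fun p => ∫ y, G p y ∂μ) := by
  have := hμ.prob
  have hGp : ∀ p, Continuous (G p) := fun p =>
    hG.comp ((continuous_const (y := p)).prodMk continuous_id)
  rw [continuous_iff_continuousAt]
  intro p0
  rw [ContinuousAt, Metric.tendsto_nhds]
  intro ε hε
  have h1 : ∀ᶠ p in 𝓝 p0, ∀ y ∈ closedBall (0 : R2 n) S, dist (G p y) (G p0 y) < ε / 2 := by
    refine (isCompact_closedBall (0 : R2 n) S).eventually_forall_of_forall_eventually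
      fun y _ => ?_
    have h2 : Continuous (fun z : P × R2 n => dist (G z.1 z.2) (G p0 z.2)) :=
      hG.dist ((hGp p0).comp continuous_snd)
    have h3 : IsOpen {z : P × R2 n | dist (G z.1 z.2) (G p0 z.2) < ε / 2} :=
      isOpen_lt h2 continuous_const
    refine h3.mem_nhds ?_
    change dist (G p0 y) (G p0 y) < ε / 2
    rw [dist_self]
    positivity
  filter_upwards [h1] with p hp
  rw [dist_eq_norm, ← integral_sub (hμ.int (hGp p)) (hμ.int (hGp p0))]
  calc ‖∫ y, (G p y - G p0 y) ∂μ‖ ≤ ∫ _, (ε / 2) ∂μ := by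
        refine norm_integral_le_of_norm_le (integrable_const _) ?_
        filter_upwards [hμ.supp] with y hy
        rw [← dist_eq_norm]
        exact (hp y (by simpa using hy)).le
    _ = ε / 2 := by simp
    _ < ε := by linarith

include hμ in
/-- differentiation under the integral -/
theorem hasFDerivAt_avg {h : R2 n → F}
    (hd : Differentiable ℝ h) (hc : Continuous (fderiv ℝ h)) (s : ℝ) (x : R2 n) :
    HasFDerivAt (fun x => ∫ y, h (x + s • y) ∂μ) (∫ y, fderiv ℝ h (x + s • y) ∂μ) x := by
  have := hμ.prob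
  have hK : IsCompact (closedBall x 1 ×ˢ closedBall (0 : R2 n) S) :=
    (isCompact_closedBall x 1).prod (isCompact_closedBall _ _)
  have hcc : Continuous (fun z : R2 n × R2 n => fderiv ℝ h (z.1 + s • z.2)) :=
    hc.comp (continuous_fst.add (continuous_snd.const_smul s))
  obtain ⟨C, hC⟩ := hK.exists_bound_of_continuousOn hcc.continuousOn
  have hc1 : ∀ x : R2 n, Continuous (fun y : R2 n => h (x + s • y)) := fun x =>
    hd.continuous.comp (by fun_prop)
  have hc2 : ∀ x : R2 n, Continuous (fun y : R2 n => fderiv ℝ h (x + s • y)) := fun x =>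
    hc.comp (by fun_prop)
  refine hasFDerivAt_integral_of_dominated_of_fderiv_le (s := ball x 1)
    (ball_mem_nhds x one_pos)
    (F := fun x y => h (x + s • y))
    (F' := fun x y => fderiv ℝ h (x + s • y)) (bound := fun _ => C)
    (Filter.Eventually.of_forall fun x => (hμ.int (hc1 x)).aestronglyMeasurable)
    (hμ.int (hc1 x)) (hμ.int (hc2 x)).aestronglyMeasurable
    ?_ (integrable_const C)
    (Filter.Eventually.of_forall fun y z _ => ?_)
  · filter_upwards [hμ.supp] with y hy z hz
    exact hC (z, y) ⟨ball_subset_closedBall hz, by simpa using hy⟩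
  · have h1 : HasFDerivAt h (fderiv ℝ h (z + s • y)) (z + s • y) := (hd _).hasFDerivAt
    have h2 : HasFDerivAt (fun z : R2 n => z + s • y) (ContinuousLinearMap.id ℝ (R2 n)) z :=
      (hasFDerivAt_id z).add_const _
    have h3 := h1.comp z h2
    rw [ContinuousLinearMap.comp_id] at h3
    exact h3

end

/-- averages of jointly smooth families are jointly smooth -/
theorem JC_avg {μ : Measure (R2 n)} {S : ℝ} (hμ : BS μ S) {P : Type} [TopologicalSpace P]
    {σ : P → ℝ} (hσ : Continuous σ) (k : ℕ) {F : Type} [NormedAddCommGroup F] [NormedSpace ℝ F]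
    {h : P → R2 n → F} (hh : JC k F h) :
    JC k F (fun p x => ∫ y, h p (x + σ p • y) ∂μ) := by
  have hc : ∀ {G : Type} [NormedAddCommGroup G] [NormedSpace ℝ G] {h : P → R2 n → G},
      Continuous (Function.uncurry h) →
      Continuous (Function.uncurry fun p x => ∫ y, h p (x + σ p • y) ∂μ) := by
    intro G _ _ h hh
    refine cont_avg hμ (P := P × R2 n) (G := fun z y => h z.1 (z.2 + σ z.1 • y)) ?_
    have e : Continuous (fun w : (P × R2 n) × R2 n => (w.1.1, w.1.2 + σ w.1.1 • w.2)) :=
      (continuous_fst.comp continuous_fst).prodMk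
        ((continuous_snd.comp continuous_fst).add
          ((hσ.comp (continuous_fst.comp continuous_fst)).smul continuous_snd))
    exact hh.comp e
  induction k generalizing F with
  | zero => exact hc hh
  | succ k ih =>
    have hcd : ∀ p, Continuous (fderiv ℝ (h p)) := fun p =>
      hh.2.2.cont.comp ((continuous_const (y := p)).prodMk continuous_id)
    have hd : ∀ p x, HasFDerivAt (fun x => ∫ y, h p (x + σ p • y) ∂μ)
        (∫ y, fderiv ℝ (h p) (x + σ p • y) ∂μ) x := fun p x =>
      hasFDerivAt_avg hμ (fun x => hh.2.1 p x) (hcd p) (σ p) x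
    refine ⟨hc hh.1, fun p x => (hd p x).differentiableAt, ?_⟩
    have : (fun p x => fderiv ℝ (fun x => ∫ y, h p (x + σ p • y) ∂μ) x) =
        fun p x => ∫ y, fderiv ℝ (h p) (x + σ p • y) ∂μ := by
      funext p x
      exact (hd p x).fderiv
    rw [this]
    exact ih (h := fun p x => fderiv ℝ (h p) x) hh.2.2

/-- the averaged displacement vanishes off a compact set, with a bound which depends only on the
support -/
theorem HM_supp {μ : Measure (R2 n)} {S : ℝ} (hμ : BS μ S) (m : ℕ) {T : ℝ} (hT0 : 0 ≤ T)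
    (φ : SympCt n) (hφ : φ ∈ supportedIn (closedBall (0 : R2 n) m)) (s : ℝ) (hs0 : 0 ≤ s)
    (hs1 : s ≤ T) (x : R2 n) (hx : x ∉ closedBall (0 : R2 n) (m + T * S)) : HM μ φ s x = 0 := by
  unfold HM
  rw [← integral_zero (R2 n) (R2 n) (μ := μ)]
  refine integral_congr_ae ?_
  filter_upwards [hμ.supp] with y hy
  show hh φ (x + s • y) = 0
  by_cases h3 : x + s • y ∈ closedBall (0 : R2 n) m
  · exfalso
    rw [mem_closedBall, dist_zero_right] at h3
    apply hx
    rw [mem_closedBall, dist_zero_right]
    have h6 : ‖x‖ ≤ ‖x + s • y‖ + ‖s • y‖ := by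
      have := norm_sub_le (x + s • y) (s • y)
      rwa [add_sub_cancel_right] at this
    have h7 : ‖s • y‖ ≤ T * S := by
      rw [norm_smul, Real.norm_of_nonneg hs0]
      exact mul_le_mul hs1 hy (norm_nonneg _) hT0
    linarith
  · show φ.toEquiv (x + s • y) - (x + s • y) = 0
    rw [hφ _ h3, sub_self]

end Pool.Agent.Run7.h233.EC
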