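import Pool.Agent.Run7.h233.EC.Lin
import Pool.Agent.W5h49.EC.KerND

/-!
# The splitting criterion for families in `Symp_ct(ℝ²ⁿ)`
-/

set_option autoImplicit false

open scoped ContDiff Topology
open Set

namespace Pool.Agent.Run7.h233.EC

open Pool.Agent.W71.EC Pool.Agent.W5h83.HG

variable {n : ℕ}

theorem NR.toNR {A : R2 n → R2 n} (h : NR A) : Pool.Agent.W5h49.EC.NR A := by
  rintro ⟨v, hv, c, hc, hw⟩
  obtain ⟨w, hne⟩ := h v hv c hc
  exact hne (hw w)

/-- composition with a symplectic linear map on the right -/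
theorem NR.comp_right {A B : R2 n → R2 n} (h : NR A) {B' : R2 n → R2 n}
    (hB : ∀ u v, omega (B u) (B v) = omega u v) (hBB : ∀ v, B (B' v) = v)
    (hB0 : ∀ v, v ≠ 0 → B v ≠ 0) : NR fun v => A (B v) := by
  intro v hv c hc
  obtain ⟨w, hw⟩ := h (B v) (hB0 v hv) c hc
  refine ⟨B' w, ?_⟩
  show omega (A (B v)) (A (B (B' w))) ≠ -c * omega v (B' w)
  rw [hBB]
  have h1 : omega v (B' w) = omega (B v) w := by rw [← hB, hBB]
  rw [h1]
  exact hw

/-- composition with a symplectic linear map on the right, the map in the form `A' ∘ X` -/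
theorem NR.comp_lin {A X Y : R2 n → R2 n} (h : NR A) (hX : ∀ u v, omega (X u) (X v) = omega u v)
    (hXY : ∀ v, X (Y v) = v) (hYX : ∀ v, Y (X v) = v) (hY0 : Y 0 = 0) : NR fun v => A (X v) :=
  h.comp_right hX hXY fun v hv h0 => hv (by rw [← hYX v, h0, hY0])

/-- the differential of `ψ⁻¹` at `ψ x` -/
noncomputable def dsym (ψ : SympCt n) (x : R2 n) : R2 n →L[ℝ] R2 n :=
  fderiv ℝ ψ.toEquiv.symm (ψ.toEquiv x)

theorem dsym_left (ψ : SympCt n) (x v : R2 n) : dsym ψ x (fderiv ℝ ψ.toEquiv x v) = v := by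
  have h1 : HasFDerivAt ψ.toEquiv (fderiv ℝ ψ.toEquiv x) x :=
    (ψ.smooth.contDiffAt.differentiableAt (by norm_num)).hasFDerivAt
  have h2 : HasFDerivAt ψ.toEquiv.symm (dsym ψ x) (ψ.toEquiv x) :=
    (ψ.smooth_symm.contDiffAt.differentiableAt (by norm_num)).hasFDerivAt
  have h3 := h2.comp x h1
  have h4 : (ψ.toEquiv.symm ∘ ψ.toEquiv : R2 n → R2 n) = id := by
    funext y
    simp
  rw [h4] at h3
  exact DFunLike.congr_fun (h3.unique (hasFDerivAt_id x)) v

theorem dsym_right (ψ : SympCt n) (x v : R2 n) : fderiv ℝ ψ.toEquiv x (dsym ψ x v) = v := by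
  have h1 : HasFDerivAt ψ.toEquiv (fderiv ℝ ψ.toEquiv x) x :=
    (ψ.smooth.contDiffAt.differentiableAt (by norm_num)).hasFDerivAt
  have h2 : HasFDerivAt ψ.toEquiv.symm (dsym ψ x) (ψ.toEquiv x) :=
    (ψ.smooth_symm.contDiffAt.differentiableAt (by norm_num)).hasFDerivAt
  have h1' : HasFDerivAt ψ.toEquiv (fderiv ℝ ψ.toEquiv x) (ψ.toEquiv.symm (ψ.toEquiv x)) := by
    rw [Equiv.symm_apply_apply]
    exact h1
  have h3 := h1'.comp (ψ.toEquiv x) h2
  have h4 : (ψ.toEquiv ∘ ψ.toEquiv.symm : R2 n → R2 n) = id := by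
    funext y
    simp
  rw [h4] at h3
  exact DFunLike.congr_fun (h3.unique (hasFDerivAt_id _)) v

theorem dsym_sympl (ψ : SympCt n) (x u v : R2 n) :
    omega (dsym ψ x u) (dsym ψ x v) = omega u v := by
  rw [← ψ.symplectic x, dsym_right, dsym_right]

/-- the differential of `φ ∘ ψ⁻¹` at `ψ x` -/
noncomputable def rel (φ ψ : SympCt n) (x : R2 n) : R2 n →L[ℝ] R2 n :=
  (fderiv ℝ φ.toEquiv x).comp (dsym ψ x)

theorem rel_eq (φ ψ : SympCt n) (x : R2 n) :
    rel φ ψ x = fderiv ℝ (fun y => φ.toEquiv (ψ.toEquiv.symm y)) (ψ.toEquiv x) := by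
  have h2 : HasFDerivAt ψ.toEquiv.symm (dsym ψ x) (ψ.toEquiv x) :=
    (ψ.smooth_symm.contDiffAt.differentiableAt (by norm_num)).hasFDerivAt
  have h1' : HasFDerivAt φ.toEquiv (fderiv ℝ φ.toEquiv x) (ψ.toEquiv.symm (ψ.toEquiv x)) := by
    rw [Equiv.symm_apply_apply]
    exact (φ.smooth.contDiffAt.differentiableAt (by norm_num)).hasFDerivAt
  exact (h1'.comp (ψ.toEquiv x) h2).fderiv.symm

theorem rel_sympl (φ ψ : SympCt n) (x u v : R2 n) :
    omega (rel φ ψ x u) (rel φ ψ x v) = omega u v := by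
  unfold rel
  simp only [ContinuousLinearMap.comp_apply]
  rw [φ.symplectic, dsym_sympl]

theorem rel_inv (φ ψ : SympCt n) (x v : R2 n) : rel φ ψ x (rel ψ φ x v) = v := by
  unfold rel
  simp only [ContinuousLinearMap.comp_apply]
  rw [dsym_left, dsym_right]

/-- the path of maps -/
noncomputable def path (a b : ℝ → ℝ) (P : R2 n →L[ℝ] R2 n) (φ ψ : SympCt n) (z : ℝ × R2 n) :
    R2 n :=
  ψ.toEquiv z.2 + (a z.1 • P (φ.toEquiv z.2 - ψ.toEquiv z.2) +
    b z.1 • ((φ.toEquiv z.2 - ψ.toEquiv z.2) - P (φ.toEquiv z.2 - ψ.toEquiv z.2)))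

theorem path_DF (a b : ℝ → ℝ) (P : R2 n →L[ℝ] R2 n) (φ ψ : SympCt n) (t : ℝ) (x v : R2 n) :
    Pool.Agent.W5h49.EC.DF (path a b P φ ψ) t x v =
      fderiv ℝ ψ.toEquiv x v +
        (a t • P (fderiv ℝ φ.toEquiv x v - fderiv ℝ ψ.toEquiv x v) +
      b t • ((fderiv ℝ φ.toEquiv x v - fderiv ℝ ψ.toEquiv x v) -
        P (fderiv ℝ φ.toEquiv x v - fderiv ℝ ψ.toEquiv x v))) := by
  unfold Pool.Agent.W5h49.EC.DF
  have h1 : HasFDerivAt φ.toEquiv (fderiv ℝ φ.toEquiv x) x :=
    (φ.smooth.contDiffAt.differentiableAt (by norm_num)).hasFDerivAt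
  have h2 : HasFDerivAt ψ.toEquiv (fderiv ℝ ψ.toEquiv x) x :=
    (ψ.smooth.contDiffAt.differentiableAt (by norm_num)).hasFDerivAt
  have h3 : HasFDerivAt (fun y => φ.toEquiv y - ψ.toEquiv y)
      (fderiv ℝ φ.toEquiv x - fderiv ℝ ψ.toEquiv x) x := h1.sub h2
  have h4 : HasFDerivAt (fun y => P (φ.toEquiv y - ψ.toEquiv y))
      (P.comp (fderiv ℝ φ.toEquiv x - fderiv ℝ ψ.toEquiv x)) x := P.hasFDerivAt.comp x h3
  have h5 : HasFDerivAt (fun y => path a b P φ ψ (t, y))
      (fderiv ℝ ψ.toEquiv x + (a t • P.comp (fderiv ℝ φ.toEquiv x - fderiv ℝ ψ.toEquiv x) +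
      b t • ((fderiv ℝ φ.toEquiv x - fderiv ℝ ψ.toEquiv x) -
        P.comp (fderiv ℝ φ.toEquiv x - fderiv ℝ ψ.toEquiv x)))) x :=
    h2.add ((h4.const_smul (a t)).add ((h3.sub h4).const_smul (b t)))
  rw [h5.fderiv]
  rfl

/-- **The splitting criterion** for families. -/
theorem homotopic_of_split (C : Type) [TopologicalSpace C] [CompactSpace C]
    (f g : C(C, SympCt n)) (π : C → R2 n →L[ℝ] R2 n) (hπc : Continuous π)
    (hπ : ∀ p v, π p (π p v) = π p v) (hs : ∀ p u v, omega (π p u) v = omega u (π p v))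
    (ha : ∀ p x, BlockNR (π p : R2 n →ₗ[ℝ] R2 n) (rel (f p) (g p) x))
    (hb : ∀ p x, BlockNR (LinearMap.id - (π p : R2 n →ₗ[ℝ] R2 n)) (rel (f p) (g p) x)) :
    g.HomotopicRel f {p | f p = g p} := by
  set a : ℝ → ℝ := fun t => Real.smoothTransition (2 * t) with hadef
  set b : ℝ → ℝ := fun t => Real.smoothTransition (2 * t - 1) with hbdef
  have has : ContDiff ℝ ∞ a := Real.smoothTransition.contDiff.comp (contDiff_const.mul contDiff_id)
  have hbs : ContDiff ℝ ∞ b :=
    Real.smoothTransition.contDiff.comp ((contDiff_const.mul contDiff_id).sub contDiff_const)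
  have a0 : a 0 = 0 := by simp [hadef, Real.smoothTransition.zero]
  have b0 : b 0 = 0 := by
    simp only [hbdef]
    exact Real.smoothTransition.zero_of_nonpos (by norm_num)
  have a1 : a 1 = 1 := by
    simp only [hadef]
    exact Real.smoothTransition.one_of_one_le (by norm_num)
  have b1 : b 1 = 1 := by
    simp only [hbdef]
    exact Real.smoothTransition.one_of_one_le (by norm_num)
  obtain ⟨m1, hm1⟩ := supp_unif (isCompact_range f.continuous)
  obtain ⟨m2, hm2⟩ := supp_unif (isCompact_range g.continuous)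
  set K : Set (R2 n) := Metric.closedBall (0 : R2 n) m1 ∪ Metric.closedBall (0 : R2 n) m2 with hK
  have hKc : IsCompact K :=
    (isCompact_closedBall (0 : R2 n) m1).union (isCompact_closedBall (0 : R2 n) m2)
  have hfK : ∀ p x, x ∉ K → (f p).toEquiv x = x := fun p x hx =>
    hm1 _ ⟨p, rfl⟩ x fun h => hx (Or.inl h)
  have hgK : ∀ p x, x ∉ K → (g p).toEquiv x = x := fun p x hx =>
    hm2 _ ⟨p, rfl⟩ x fun h => hx (Or.inr h)
  have hF : ∀ p, ContDiff ℝ ∞ (path a b (π p) (f p) (g p)) := by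
    intro p
    have hps : ContDiff ℝ ∞ (fun z : ℝ × R2 n => (f p).toEquiv z.2 - (g p).toEquiv z.2) :=
      ((f p).smooth.comp contDiff_snd).sub ((g p).smooth.comp contDiff_snd)
    exact ((g p).smooth.comp contDiff_snd).add
      (((has.comp contDiff_fst).smul ((π p).contDiff.comp hps)).add
        ((hbs.comp contDiff_fst).smul (hps.sub ((π p).contDiff.comp hps))))
  have hJ : ∀ k, JC k (R2 n) (fun (q : C × ℝ) (x : R2 n) =>
      path a b (π q.1) (f q.1) (g q.1) (q.2, x)) := by
    intro k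
    have h1 : JC k (R2 n) (fun (q : C × ℝ) (x : R2 n) => (f q.1).toEquiv x) :=
      (JS.of_continuous f.continuous k).param continuous_fst
    have h2 : JC k (R2 n) (fun (q : C × ℝ) (x : R2 n) => (g q.1).toEquiv x) :=
      (JS.of_continuous g.continuous k).param continuous_fst
    have h3 : JC k (R2 n) (fun (q : C × ℝ) (x : R2 n) =>
        (f q.1).toEquiv x + -(g q.1).toEquiv x) := h1.add h2.neg
    have h4 : JC k (R2 n) (fun (q : C × ℝ) (x : R2 n) =>
        (ContinuousLinearMap.id ℝ (R2 n →L[ℝ] R2 n)) (π q.1)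
          ((f q.1).toEquiv x + -(g q.1).toEquiv x)) :=
      JC.bilin (ContinuousLinearMap.id ℝ (R2 n →L[ℝ] R2 n))
        (JC.constX (a := fun q : C × ℝ => π q.1) (hπc.comp continuous_fst) k) h3
    have h5 := h2.add ((h4.smulP (a := fun q : C × ℝ => a q.2)
      (has.continuous.comp continuous_snd)).add ((h3.add h4.neg).smulP
        (a := fun q : C × ℝ => b q.2) (hbs.continuous.comp continuous_snd)))
    have h6 : (fun (q : C × ℝ) (x : R2 n) =>
      path a b (π q.1) (f q.1) (g q.1) (q.2, x)) = fun (q : C × ℝ) (x : R2 n) =>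
        (g q.1).toEquiv x + (a q.2 • (ContinuousLinearMap.id ℝ (R2 n →L[ℝ] R2 n)) (π q.1)
          ((f q.1).toEquiv x + -(g q.1).toEquiv x) +
          b q.2 • (((f q.1).toEquiv x + -(g q.1).toEquiv x) +
            -(ContinuousLinearMap.id ℝ (R2 n →L[ℝ] R2 n)) (π q.1)
          ((f q.1).toEquiv x + -(g q.1).toEquiv x))) := by
      funext q x
      unfold path
      simp only [← sub_eq_add_neg]
      rfl
    rw [h6]
    exact h5
  have h0 : ∀ p t x, x ∉ K → path a b (π p) (f p) (g p) (t, x) = x := by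
    intro p t x hx
    unfold path
    simp only [hfK p x hx, hgK p x hx, sub_self, map_zero, smul_zero, add_zero]
  have h := Pool.Agent.W5h49.EC.ND.moser_fam_nd (Pool.Agent.W5h49.EC.flow_jc
    Pool.Agent.W5h49.EC.nem Pool.Agent.W5h49.EC.ev n) C
    (fun p => path a b (π p) (f p) (g p)) K hF hJ hKc h0 ?_ g f ?_ ?_
  · refine Pool.Agent.W5h49.EC.rel_mono h fun p hp t x => ?_
    have hp' : f p = g p := hp
    show path a b (π p) (f p) (g p) (t, x) = path a b (π p) (f p) (g p) (0, x)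
    unfold path
    simp only [hp', sub_self, map_zero, smul_zero, add_zero]
  · intro p t x s hs0 hs1 v hv
    refine Pool.Agent.W5h49.EC.nd_of_NR ?_ s hs0 hs1 v hv
    set X : R2 n →ₗ[ℝ] R2 n := (rel (f p) (g p) x : R2 n →ₗ[ℝ] R2 n) with hXdef
    set Y : R2 n →ₗ[ℝ] R2 n := (rel (g p) (f p) x : R2 n →ₗ[ℝ] R2 n) with hYdef
    set G : R2 n →L[ℝ] R2 n := fderiv ℝ (g p).toEquiv x with hGdef
    have hXs : ∀ u v, omega (X u) (X v) = omega u v := rel_sympl _ _ x
    have hYs : ∀ u v, omega (Y u) (Y v) = omega u v := rel_sympl _ _ x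
    have hXY : ∀ v, X (Y v) = v := rel_inv _ _ x
    have hYX : ∀ v, Y (X v) = v := rel_inv _ _ x
    have hXG : ∀ v, X (G v) = fderiv ℝ (f p).toEquiv x v := by
      intro v
      show fderiv ℝ (f p).toEquiv x (dsym (g p) x (fderiv ℝ (g p).toEquiv x v)) = _
      rw [dsym_left]
    set π' : R2 n →ₗ[ℝ] R2 n := (π p : R2 n →ₗ[ℝ] R2 n) with hπ'
    set ρ : R2 n →ₗ[ℝ] R2 n := LinearMap.id - π' with hρdef
    have hρe : ∀ v, ρ v = v - π' v := fun v => rfl
    have hππ : ∀ v, π' (π' v) = π' v := hπ p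
    have hρ : ∀ v, ρ (ρ v) = ρ v := by
      intro v
      rw [hρe, hρe, map_sub, hππ, sub_self, sub_zero]
    have hsπ : ∀ u v, omega (π' u) v = omega u (π' v) := hs p
    have hsρ : ∀ u v, omega (ρ u) v = omega u (ρ v) := by
      intro u v
      rw [hρe, hρe, omega_sub_left, omega_sub_right, hsπ]
    have hPX : BlockNR π' X := ha p x
    have hQX : BlockNR ρ X := hb p x
    have key : NR fun v => v + (a t • π' (X v - v) + b t • ((X v - v) - π' (X v - v))) := by
      rcases le_total t (1 / 2) with ht | ht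
      · have hbt : b t = 0 := by
          simp only [hbdef]
          exact Real.smoothTransition.zero_of_nonpos (by linarith)
        have h2 := split_NR hππ hsπ hXs hXY (fun μ hμ v hv h3 => by
            refine hPX.one hππ hsπ hXs hXY hμ le_rfl hv ?_
            rw [h3]
            simp)
          (fun μ hμ c hc v hv h3 => hPX.two hππ hsπ hXs hXY hμ hc hv h3)
          (t := a t) ⟨Real.smoothTransition.nonneg _, Real.smoothTransition.le_one _⟩
        have e2 : (fun v => v + a t • π' (X v - v)) = fun v =>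
            v + (a t • π' (X v - v) + b t • ((X v - v) - π' (X v - v))) := by
          funext v
          rw [hbt, zero_smul, add_zero]
        rw [e2] at h2
        exact h2
      · have hat : a t = 1 := by
          simp only [hadef]
          exact Real.smoothTransition.one_of_one_le (by linarith)
        have hmem : b t ∈ Icc (0 : ℝ) 1 :=
          ⟨Real.smoothTransition.nonneg _, Real.smoothTransition.le_one _⟩
        have h2 := NR.comp_lin (split_NR hρ hsρ hYs hYX
          (fun μ hμ v hv h3 => hQX.inj hρ hsρ hXs hXY hμ hv h3)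
          (fun μ hμ c hc v hv h3 => hQX.one hρ hsρ hXs hXY hμ hc hv h3) (t := 1 - b t)
          ⟨by linarith [hmem.2], by linarith [hmem.1]⟩) hXs hXY hYX (map_zero Y)
        have e2 : (fun v => X v + (1 - b t) • ρ (Y (X v) - X v)) = fun v =>
            v + (a t • π' (X v - v) + b t • ((X v - v) - π' (X v - v))) := by
          funext v
          rw [hat, hYX, hρe]
          simp only [map_sub]
          module
        rw [e2] at h2
        exact h2
    have key2 := key.comp_lin (X := G) (Y := dsym (g p) x) ((g p).symplectic x)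
      (dsym_right (g p) x) (dsym_left (g p) x) (map_zero _)
    refine NR.toNR ?_
    have e3 : (Pool.Agent.W5h49.EC.DF (path a b (π p) (f p) (g p)) t x : R2 n → R2 n) =
        fun v => G v + (a t • π' (X (G v) - G v) + b t • ((X (G v) - G v) -
          π' (X (G v) - G v))) := by
      funext v
      rw [path_DF, hXG]
      rfl
    show NR (Pool.Agent.W5h49.EC.DF (path a b (π p) (f p) (g p)) t x : R2 n → R2 n)
    rw [e3]
    exact key2
  · intro p x
    show path a b (π p) (f p) (g p) (0, x) = _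
    unfold path
    simp only [a0, b0, zero_smul, add_zero]
  · intro p x
    show path a b (π p) (f p) (g p) (1, x) = _
    unfold path
    simp only [a1, b1, one_smul, add_sub_cancel]

end Pool.Agent.Run7.h233.EC
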